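import Pool.Agent.Helper95.HV.Stmts

/-!
# Row V2R of the sheet HV, in parts
-/

set_option autoImplicit false

namespace Pool.Agent.Helper71.HV

open MeasureTheory Filter Pool.Agent.Helper95.PW Pool.Agent.Helper95.LN Pool.Agent.Helper95.CF
open Pool.Agent.Helper95.HV

/-- part VL (NBZ FFZ KK): virial of a field which vanishes near the nuclei and far from them. Use
VIR_id, VIR_b1, VIR_b2 of Helper53/LN/VIR.lean for `-g` (`Vir (-g) = - Vir g`); own nucleus: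
`|na| ≤ 3 A / (d/8)^2` as `pd i g = 0` if `nr (x k - X i) < d / 8`; `∑ i, cnt i ≤ n`. -/
def ST_VL : Prop := ∀ d : ℝ, 0 < d → d ≤ 1 → ∀ A : ℝ, 1 ≤ A → ∃ C : ℝ, 0 < C ∧ ∀ (z : ℝ)
  (n M : ℕ) (X : Fin M → R3) (Z : Fin M → ℝ) (g : R3 → ℝ) (x : Cf n), Dat d z n X Z →
  ContDiff ℝ (⊤ : ℕ∞) g → (∀ i y, (∀ j, d ≤ nr (y - X j)) → pd i g y = 0) →
  (∀ i y, |pd i g y| ≤ A) → (∀ i l y, |pd i (pd l g) y| ≤ A) →
  (∀ j y, nr (y - X j) < d / 8 → ∀ i, pd i g y = 0) → Dist X x →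
  Vir X Z g x ≤ C * (Loc d z X Z x + z * n)

/-- part PE: pairs of electrons. `|pd i G y - pd i G y'| ≤ 3 K / L * nr (y - y')` (mean value), the
same for `A` with `r`; `|gq G y i - gq G y' i| ≤ 18 K^2 / L^2 * nr (y - y')`;
`|Tq ξ v w| ≤ 4 * nr v * nr w / nr ξ ^ 3`. -/
def ST_PE : Prop := ∃ C : ℝ, 0 < C ∧ ∀ (K L r : ℝ) (G A : R3 → ℝ) (y y' : R3), 1 ≤ K → 1 ≤ L →
  0 < r → r ≤ 1 → Scale G K L → Scale A K r → nr (y - y') ≠ 0 →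
  |Tq (y - y') (gv G y - gv G y') (gv G y - gv G y')| +
    2 * |Tq (y - y') (gv G y - gv G y') (gv A y - gv A y')| +
    |(∑ i, (gq G y i - gq G y' i) * (y i - y' i)) / nr (y - y') ^ 3| ≤
    C * K ^ 2 / (r * L) * (1 / nr (y - y'))

/-- part NE (FLD CUT): one electron at `y` and the nuclei. If `nr y < L`: `gv (gm m L) y = e_m`,
`gq = 0`, `∑ m, Tq ξ e_m e_m = 0`; `gv (gN X m (d/8)) y` is `0` unless `nr (y - X i) ≤ d / 4` for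
one `i`; then `j = i`: it is `e_m` if `nr (y - X i) < d / 8`, and `|Tq| ≤ 12 K / (d/8)^3` if not;
`j ≠ i`: `nr (y - X j) ≥ nr (X i - X j) / 2`. If `nr y ≥ L`: `nr (y - X j) ≥ L / 2`, the field
`gv (gN ..) y` is `0`, `|gq| ≤ 3 K^2 / L`. -/
def ST_NE : Prop := ∀ d : ℝ, 0 < d → d ≤ 1 → ∃ C : ℝ, 0 < C ∧ ∀ (z L Λ : ℝ) (n M : ℕ)
  (X : Fin M → R3) (Z : Fin M → ℝ) (y : R3), Dat d z n X Z → 1 ≤ L → 0 ≤ Λ →
  (∀ j, 2 * nr (X j) + 4 ≤ L) →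
  (∀ i, ∑ j, (if j = i then 0 else 1 / nr (X i - X j) ^ 3) ≤ Λ) → (∀ j, nr (y - X j) ≠ 0) →
  ∑ m, ∑ j, Z j * ((∑ i, gq (gm m L) y i * (y i - X j i)) / nr (y - X j) ^ 3 -
    Tq (y - X j) (gv (gm m L) y) (gv (gm m L) y) +
    2 * Tq (y - X j) (gv (gm m L) y) (gv (gN X m (d / 8)) y)) ≤
    C * (z * (1 + Λ)) + C / L * pot X Z y

end Pool.Agent.Helper71.HV
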